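import Pool.Agent.W434.BW.StmC

/-! Project BW: compatible Latin square plus weak near-unanimity gives an abelian group. -/

set_option autoImplicit false

namespace Pool.Agent.W585.BW

open Pool.Agent.W434.BW

/-- the group from its axioms -/
def mkG {Q : Type} (p : Q → Q → Q) (z0 : Q) (ng : Q → Q)
    (h0 : ∀ x, p x z0 = x) (h0' : ∀ x, p z0 x = x) (hc : ∀ x y, p x y = p y x)
    (ha : ∀ x y z, p (p x y) z = p x (p y z)) (hn : ∀ x, p (ng x) x = z0) : AddCommGroup Q :=
  letI : Add Q := ⟨p⟩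
  letI : Zero Q := ⟨z0⟩
  letI : Neg Q := ⟨ng⟩
  { add := p
    zero := z0
    neg := ng
    add_assoc := ha
    zero_add := h0'
    add_zero := h0
    add_comm := hc
    neg_add_cancel := hn
    nsmul := nsmulRec
    zsmul := zsmulRec }

theorem loop : S_loop := by
  intro Ω ar Q _ q u L z0 hN hL hb1 hb2
  obtain ⟨hid, hw⟩ := hN
  have hLt : ∀ (V : Type) (t : Tm ar V) (x y : V → Q),
      L (t.ev q x) (t.ev q y) = t.ev q (fun i => L (x i) (y i)) := by
    intro V t x y
    induction t with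
    | var v => rfl
    | app ω t ih =>
      show L (q ω _) (q ω _) = q ω _
      rw [hL]
      congr 1
      funext i
      exact ih i
  obtain ⟨b0, hb0⟩ := (hb1 z0).2 z0
  choose R hR using (hb2 b0).2
  choose S hS using (hb1 z0).2
  have hR' : ∀ x, L (R x) b0 = x := hR
  have hRi : ∀ a, R (L a b0) = a := fun a => (hb2 b0).1 (hR' (L a b0))
  have hSi : ∀ b, S (L z0 b) = b := fun b => (hb1 z0).1 (hS (L z0 b))
  have hR0 : R z0 = z0 := by
    have := hRi z0
    rwa [hb0] at this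
  have hS0 : S z0 = b0 := by
    have := hSi b0
    rwa [hb0] at this
  obtain ⟨p, hp⟩ : ∃ p : Q → Q → Q, ∀ x y, p x y = L (R x) (S y) := ⟨_, fun _ _ => rfl⟩
  have p0 : ∀ x, p x z0 = x := by
    intro x
    rw [hp, hS0, hR']
  have p0' : ∀ x, p z0 x = x := by
    intro x
    rw [hp, hR0, hS]
  have hRt : ∀ (V : Type) (t : Tm ar V) (x : V → Q),
      R (t.ev q x) = t.ev q (fun i => R (x i)) := by
    intro V t x
    apply (hb2 b0).1
    show L (R (t.ev q x)) b0 = L (t.ev q (fun i => R (x i))) b0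
    rw [hR']
    have h1 : b0 = t.ev q (fun _ => b0) := (ev_idem hid t b0).symm
    have h2 : L (t.ev q (fun i => R (x i))) (t.ev q (fun _ => b0)) = t.ev q x := by
      rw [hLt]
      congr 1
      funext i
      exact hR' _
    rw [← h1] at h2
    exact h2.symm
  have hSt : ∀ (V : Type) (t : Tm ar V) (x : V → Q),
      S (t.ev q x) = t.ev q (fun i => S (x i)) := by
    intro V t x
    apply (hb1 z0).1
    rw [hS]
    have h1 : z0 = t.ev q (fun _ => z0) := (ev_idem hid t z0).symm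
    have h2 : L (t.ev q (fun _ => z0)) (t.ev q (fun i => S (x i))) = t.ev q x := by
      rw [hLt]
      congr 1
      funext i
      exact hS _
    rw [← h1] at h2
    exact h2.symm
  have hpt : ∀ (V : Type) (t : Tm ar V) (x y : V → Q),
      t.ev q (fun i => p (x i) (y i)) = p (t.ev q x) (t.ev q y) := by
    intro V t x y
    rw [hp, hRt, hSt, hLt]
    congr 1
    funext i
    exact hp _ _
  have hpω : ∀ (ω : Ω) (x y : Fin (ar ω) → Q),
      q ω (fun i => p (x i) (y i)) = p (q ω x) (q ω y) := by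
    intro ω x y
    exact hpt (Fin (ar ω)) (.app ω (fun i => .var i)) x y
  have hpu : ∀ x y z x' y' z' : Q,
      u.ev q ![p x x', p y y', p z z'] = p (u.ev q ![x, y, z]) (u.ev q ![x', y', z']) := by
    intro x y z x' y' z'
    rw [← hpt]
    congr 1
    funext i
    fin_cases i <;> rfl
  obtain ⟨γ, hγ⟩ : ∃ γ : Q → Q, ∀ x, γ x = u.ev q ![x, z0, z0] := ⟨_, fun _ => rfl⟩
  have hγ2 : ∀ x, γ x = u.ev q ![z0, x, z0] := fun x => (hγ x).trans (hw z0 x).1
  have hγ3 : ∀ x, γ x = u.ev q ![z0, z0, x] := fun x => (hγ2 x).trans (hw z0 x).2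
  have e1 : ∀ x y, u.ev q ![x, y, z0] = p (γ x) (γ y) := by
    intro x y
    have := hpu x z0 z0 z0 y z0
    rwa [p0, p0', p0, ← hγ, ← hγ2] at this
  have e2 : ∀ x y, u.ev q ![x, y, z0] = p (γ y) (γ x) := by
    intro x y
    have := hpu z0 y z0 x z0 z0
    rwa [p0', p0, p0, ← hγ, ← hγ2] at this
  have e3 : ∀ x y z, u.ev q ![x, y, z] = p (p (γ x) (γ y)) (γ z) := by
    intro x y z
    have := hpu x y z0 z0 z0 z
    rwa [p0, p0, p0', e1, ← hγ3] at this
  have e4 : ∀ y z, u.ev q ![z0, y, z] = p (γ y) (γ z) := by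
    intro y z
    have := hpu z0 y z0 z0 z0 z
    rwa [p0, p0, p0', ← hγ2, ← hγ3] at this
  have e5 : ∀ x y z, u.ev q ![x, y, z] = p (γ x) (p (γ y) (γ z)) := by
    intro x y z
    have := hpu x z0 z0 z0 y z
    rwa [p0, p0', p0', ← hγ, e4] at this
  have e6 : ∀ x y, γ (p x y) = p (γ x) (γ y) := by
    intro x y
    have := hpu x z0 z0 y z0 z0
    rwa [p0, ← hγ, ← hγ, ← hγ] at this
  have hsur : Function.Surjective γ := by
    intro x
    refine ⟨p (p x x) x, ?_⟩
    rw [e6, e6, ← e3]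
    have h1 : (![x, x, x] : Fin 3 → Q) = fun _ => x := by
      funext i
      fin_cases i <;> rfl
    rw [h1]
    exact ev_idem hid u x
  have hbij : Function.Bijective γ := ⟨Finite.injective_iff_surjective.mpr hsur, hsur⟩
  have hc : ∀ x y, p x y = p y x := by
    intro x y
    obtain ⟨x', rfl⟩ := hsur x
    obtain ⟨y', rfl⟩ := hsur y
    rw [← e1, ← e2]
  have ha : ∀ x y z, p (p x y) z = p x (p y z) := by
    intro x y z
    obtain ⟨x', rfl⟩ := hsur x
    obtain ⟨y', rfl⟩ := hsur y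
    obtain ⟨z', rfl⟩ := hsur z
    rw [← e3, ← e5]
  have hinv : ∀ x, ∃ y, p y x = z0 := by
    intro x
    obtain ⟨a, ha'⟩ := (hb2 (S x)).2 z0
    refine ⟨L a b0, ?_⟩
    rw [hp, hRi]
    exact ha'
  choose ng hng using hinv
  refine ⟨mkG p z0 ng p0 p0' hc ha hng, γ, rfl, hpω, hbij, e6, e3⟩

end Pool.Agent.W585.BW
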