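import Pool.Agent.W434.BW.StmA

/-! Project BW: centers absorb through transitive terms. -/

set_option autoImplicit false

namespace Pool.Agent.W585.BW

open Pool.Agent.W434.BW

theorem cen : S_cen := by
  intro Ω ar X Y a b R ι T hR hext htr i x hx y
  obtain ⟨z0, hz0⟩ := hext (x i)
  obtain ⟨z, hzi, hz⟩ := htr i z0 y
  have h : ∀ j, R (x j) (z j) := by
    intro j
    by_cases hj : j = i
    · subst hj
      rw [hzi]
      exact hz0
    · exact hx j hj (z j)
  have h2 := ev_rel hR T x z h
  rwa [hz] at h2

end Pool.Agent.W585.BW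

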